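import Pool.Agent.H7.SZ.Final

set_option autoImplicit false

/-!
# MP_283627_an: Szegő's conjecture for the root transforms, the case `p = 5`

For every `f` in `S` the coefficients of `f(z⁵)^(1/5) = z + ∑ c_n z^(5n+1)` are `O(n^(2/5 - 1))`.
(`p = 4`: Baernstein 1986.) The same method gives, for univalent functions `F` with
`|F(z)| ≤ A (1 - |z|)^(-2/5)`, the integral means `O((1 - r)^(-2/5))` of `F'` and coefficients
`O(n^(-3/5))`, in particular `c_n = O(n^(-3/5))` for the `p`-th root transforms with `p ≥ 5`.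

The proof. Let `F = f(z⁵)^(1/5)` (univalent, `|F| ≤ (1 - |z|)^(-2/5)`) and
`K(ζ, z) = ((F(z) - F(ζ)) / (z - ζ))^(1/2) = ∑ ν_ab ζ^a z^b`, so `K(z, z)² = F'(z)`. Let
`(1 - x)^(1/2) = ∑ β_k x^k` and `T_n^m = ∑_b ν_(m-b, b) β_(b-n)` for all integers `n ≤ m`.

1. (POL, IG, AREA) For `j ≥ 1` the coefficient of `ζ^j` in `K(ζ, z) (1 - ζ/z)^(1/2)` is, up to the factor
   `z^(-1/2)`, a polynomial in `u = F₂(z^(1/2))^(-1)`, `F₂(v)² = F(v²)`, with the Laurent coefficients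
   `T_n^(n+j)`; by the area theorem `∑_(n ≥ 0) (n + 1/2) |T_n^(n+j)|² ≤ ∑_(k ≥ 1) (k - 1/2) |T_(-k)^(j-k)|²`.
   (For `j = 0` this fails: `T_m^m = ν_0m` are the coefficients of `(F/z)^(1/2)`; they are controlled by
   the area of the image of `F₂`, at most `π max |F|` (FRC).) Multiply by `(j + 1)^(1-σ)`, `σ = 0.399`, and
   sum over `j ≥ 1` (WAR).
2. (helper76: ID2) The symmetry of `ν` gives, for `k ≥ 1`, the exact identity
   `T_(-k)^m = β_(m+k) (T_m^m + ∑_(n=1)^m (m + k) u_(n-1) / (m + k - n - 1/2) T_n^m)`, `u_j` the coefficients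
   of `(1 - x)^(-3/2)`; (helper64: REDF) the Hilbert-Schmidt sum of the part `n < m` tends to an explicit
   integral, which is less than `1` for `σ = 0.399 < 2/5`.
3. (ABS, PERM) The part of the forced term `ν_0m` in `T_(-k)^m` is about `ν_0m / (π k)`, which gives a
   logarithm; it is cancelled exactly by the terms with small `n ≥ 0`, which are bounded below by
   Cauchy's inequality and the relation `∑_n T_n^m = 0`.
4. (CORE, GD, FIN, MN, CF) Summation: `∑_(m < M) |[z^m] K(z, z)|² = O(M^(2/5))`.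
-/

namespace Pool.Agent.Results.MP_283627_an.FifthRootTransform

open Metric Set

/-- The class `S`. -/
def InS (f : ℂ → ℂ) : Prop :=
  DifferentiableOn ℂ f (ball 0 1) ∧ InjOn f (ball 0 1) ∧ f 0 = 0 ∧ deriv f 0 = 1

/-- `g = f(z^p)^(1/p)`, the branch with `g(z) = z + ...`. -/
def IsRootTransform (p : ℕ) (f g : ℂ → ℂ) : Prop :=
  DifferentiableOn ℂ g (ball 0 1) ∧ (∀ z ∈ ball (0 : ℂ) 1, g z ^ p = f (z ^ p)) ∧ deriv g 0 = 1

/-- The coefficient of `z^n` in the Taylor expansion at `0`. -/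
noncomputable def coef (g : ℂ → ℂ) (n : ℕ) : ℂ := iteratedDeriv n g 0 / (n.factorial : ℂ)

/-- **Result.** (1) For every `f` in `S` the root transform `g = f(z^5)^(1/5) = z + ∑ c_n z^(5n+1)`
exists and Szegő's estimate `c_n = O(n^(2/5 - 1))` holds. (2) For all `p ≥ 5` the coefficients of
`f(z^p)^(1/p)` are `O(n^(-3/5))`. (3) If `F` in `S` satisfies `|F(z)| ≤ A (1 - |z|)^(-2/5)` then the
means of `|F'|` over `|z| = r` are `O((1 - r)^(-2/5))` and the coefficients of `F` are `O(n^(-3/5))`. -/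
theorem result :
    (∀ f : ℂ → ℂ, InS f → (∃ g : ℂ → ℂ, IsRootTransform 5 f g) ∧
      ∀ g : ℂ → ℂ, IsRootTransform 5 f g →
        ∃ C : ℝ, ∀ n : ℕ, 1 ≤ n → ‖coef g (5 * n + 1)‖ ≤ C * (n : ℝ) ^ (2 / 5 - 1 : ℝ)) ∧
    (∀ p : ℕ, 5 ≤ p → ∀ f g : ℂ → ℂ, InS f → IsRootTransform p f g →
      ∃ C : ℝ, ∀ n : ℕ, 1 ≤ n → ‖coef g (p * n + 1)‖ ≤ C * (n : ℝ) ^ (-(3 / 5) : ℝ)) ∧
    ∀ (F : ℂ → ℂ) (A : ℝ), InS F →
      (∀ z ∈ ball (0 : ℂ) 1, ‖F z‖ ≤ A * (1 - ‖z‖) ^ (-(2 / 5) : ℝ)) →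
      ∃ C : ℝ, (∀ r : ℝ, 0 < r → r < 1 →
          (1 / (2 * Real.pi)) * ∫ t in (0 : ℝ)..(2 * Real.pi), ‖deriv F (circleMap 0 r t)‖ ≤
            C * (1 - r) ^ (-(2 / 5) : ℝ)) ∧
        ∀ n : ℕ, 1 ≤ n → ‖coef F n‖ ≤ C * (n : ℝ) ^ (-(3 / 5) : ℝ) := by
  have hS : ∀ {f : ℂ → ℂ}, InS f → Pool.Agent.H7.SZ.Sc f := fun h => ⟨h.1, h.2.1, h.2.2.1, h.2.2.2⟩
  have h2 : ∀ p : ℕ, 5 ≤ p → ∀ f g : ℂ → ℂ, InS f → IsRootTransform p f g →
      ∃ C : ℝ, ∀ n : ℕ, 1 ≤ n → ‖coef g (p * n + 1)‖ ≤ C * (n : ℝ) ^ (-(3 / 5) : ℝ) :=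
    fun p hp f g hf hg => Pool.Agent.H7.SZ.rootU hp (hS hf) hg
  refine ⟨fun f hf => ⟨Pool.Agent.H7.SZ.exr 5 f (by norm_num) (hS hf), fun g hg => ?_⟩, h2,
    fun F A hF hG => ?_⟩
  · have e : (2 / 5 - 1 : ℝ) = -(3 / 5) := by norm_num
    rw [e]
    exact h2 5 le_rfl f g hf hg
  · obtain ⟨C, h3, h4⟩ := Pool.Agent.H7.SZ.growthU (hS hF) hG
    exact ⟨C, fun r hr0 hr1 => h3 r ⟨hr0, hr1⟩, h4⟩

end Pool.Agent.Results.MP_283627_an.FifthRootTransform
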